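import Mathlib

/-!
# Sums of unit vectors drawn from balanced families: definitions
-/

namespace Pool.Agent.Work.MP_4da8b1_gt

/-- Euclidean `n`-space. -/
abbrev E (n : ℕ) : Type := EuclideanSpace ℝ (Fin n)

/-- `U` is a set of `k` unit vectors of `ℝⁿ`, `2 ≤ k ≤ n + 1`, and the origin is a linear
combination of its elements with all coefficients positive. -/
def IsBalanced (n : ℕ) (U : Finset (E n)) : Prop :=
  2 ≤ U.card ∧ U.card ≤ n + 1 ∧ (∀ u ∈ U, ‖u‖ = 1) ∧
    ∃ w : E n → ℝ, (∀ u ∈ U, 0 < w u) ∧ ∑ u ∈ U, w u • u = 0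

/-- `r` is the largest distance from `c` to a sum formed by choosing one vector from each of the
families `U 0, …, U n`, that is `M(U; c) = r`. -/
def IsMaxDist (n : ℕ) (U : Fin (n + 1) → Finset (E n)) (c : E n) (r : ℝ) : Prop :=
  IsGreatest {ρ : ℝ | ∃ s : Fin (n + 1) → E n, (∀ i, s i ∈ U i) ∧ ρ = ‖(∑ i, s i) - c‖} r

/-- The points `u i` are the vertices of a regular simplex: their mutual distances are all equal
to one positive number. -/
def IsRegularSimplex {n : ℕ} {ι : Type} (u : ι → E n) : Prop :=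
  ∃ r : ℝ, 0 < r ∧ ∀ i j, i ≠ j → dist (u i) (u j) = r

/-- The configurations listed in Q2: `c = 0`, `U i = {u i, -u i}` with `u i` a unit vector, and,
after relabelling the families,

* if `n` is even, the `n + 1` unit vectors `u i` are the vertices of a regular simplex,
* if `n` is odd, for some `1 ≤ k ≤ (n - 1) / 2` the first `2 k + 1` vectors are the vertices of a
  regular simplex and the other ones form an orthonormal set, each of them being orthogonal to the
  first `2 k + 1` vectors. -/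
def Listed (n : ℕ) (U : Fin (n + 1) → Finset (E n)) (c : E n) : Prop :=
  c = 0 ∧ ∃ u : Fin (n + 1) → E n, (∀ i, ‖u i‖ = 1 ∧ ∀ x, x ∈ U i ↔ x = u i ∨ x = -u i) ∧
    ∃ σ : Equiv.Perm (Fin (n + 1)),
      (Even n → IsRegularSimplex fun i => u (σ i)) ∧
      (Odd n → ∃ k : ℕ, 1 ≤ k ∧ k ≤ (n - 1) / 2 ∧
        IsRegularSimplex (fun i : {i : Fin (n + 1) // (i : ℕ) < 2 * k + 1} => u (σ i)) ∧
        (∀ i j : Fin (n + 1), 2 * k + 1 ≤ (i : ℕ) → i ≠ j → inner ℝ (u (σ i)) (u (σ j)) = 0))

end Pool.Agent.Work.MP_4da8b1_gt
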