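import Pool.Agent.Work.MP_4da8b1_gt.Defs

/-!
# The mixed configuration: a regular triangle and an orthonormal system
-/

namespace Pool.Agent.Work.MP_4da8b1_gt

open scoped InnerProductSpace

variable (m : ℕ)

/-- three unit vectors of a plane at mutual angles `120°` and `m` unit vectors forming an orthonormal
basis of the orthogonal complement of the plane in `ℝ^(m+2)` -/
noncomputable def conf : Fin (m + 3) → E (m + 2) :=
  Fin.cons (EuclideanSpace.single 0 1)
    (Fin.cons ((-(1 / 2) : ℝ) • EuclideanSpace.single 0 1 + (√3 / 2) • EuclideanSpace.single 1 1)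
      (Fin.cons ((-(1 / 2) : ℝ) • EuclideanSpace.single 0 1 - (√3 / 2) • EuclideanSpace.single 1 1)
        (fun i : Fin m => EuclideanSpace.single i.succ.succ 1)))

lemma conf_zero : conf m 0 = EuclideanSpace.single 0 1 := rfl

lemma conf_one : conf m 1 =
    (-(1 / 2) : ℝ) • EuclideanSpace.single 0 1 + (√3 / 2) • EuclideanSpace.single 1 1 := rfl

lemma conf_two : conf m 2 =
    (-(1 / 2) : ℝ) • EuclideanSpace.single 0 1 - (√3 / 2) • EuclideanSpace.single 1 1 := rfl

lemma conf_succ (i : Fin m) : conf m i.succ.succ.succ = EuclideanSpace.single i.succ.succ 1 := rfl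

lemma sum_expand (f : Fin (m + 3) → E (m + 2)) (k : Fin (m + 2)) :
    (∑ j, f j) k = f 0 k + f 1 k + f 2 k + ∑ i : Fin m, f i.succ.succ.succ k := by
  rw [Fin.sum_univ_succ, Fin.sum_univ_succ, Fin.sum_univ_succ]
  have h1 : (Fin.succ 0 : Fin (m + 3)) = 1 := rfl
  have h2 : (Fin.succ (Fin.succ 0) : Fin (m + 3)) = 2 := rfl
  rw [h1, h2]
  simp only [PiLp.add_apply]
  rw [show (∑ i : Fin m, f i.succ.succ.succ).ofLp k = ∑ i : Fin m, f i.succ.succ.succ k by simp]
  ring

lemma ne1 (i : Fin m) : ¬ (1 : Fin (m + 2)) = i.succ.succ := by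
  intro h
  have := congrArg Fin.val h
  simp at this

lemma ne0 (i : Fin m) : ¬ (0 : Fin (m + 2)) = i.succ.succ := by
  intro h
  have := congrArg Fin.val h
  simp at this

lemma ne1' (i : Fin m) : ¬ i.succ.succ = (1 : Fin (m + 2)) := fun h => ne1 m i h.symm

lemma ne0' (i : Fin m) : ¬ i.succ.succ = (0 : Fin (m + 2)) := fun h => ne0 m i h.symm

lemma norm_sum_sq (ε : Fin (m + 3) → ℝ) :
    ‖∑ j, ε j • conf m j‖ ^ 2 =
      (ε 0 - (ε 1 + ε 2) / 2) ^ 2 + 3 / 4 * (ε 1 - ε 2) ^ 2 +
        ∑ i : Fin m, ε i.succ.succ.succ ^ 2 := by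
  have h3 : √3 ^ 2 = 3 := Real.sq_sqrt (by norm_num)
  have c0 : (∑ j, ε j • conf m j) 0 = ε 0 - (ε 1 + ε 2) / 2 := by
    rw [sum_expand]
    simp only [conf_zero, conf_one, conf_two, conf_succ]
    simp [ne0]
    ring
  have c1 : (∑ j, ε j • conf m j) 1 = √3 / 2 * (ε 1 - ε 2) := by
    rw [sum_expand]
    simp only [conf_zero, conf_one, conf_two, conf_succ]
    simp [ne1]
    ring
  have ci : ∀ i : Fin m, (∑ j, ε j • conf m j) i.succ.succ = ε i.succ.succ.succ := by
    intro i
    rw [sum_expand]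
    simp only [conf_zero, conf_one, conf_two, conf_succ]
    simp [ne1']
  generalize (∑ j, ε j • conf m j) = S at c0 c1 ci ⊢
  rw [EuclideanSpace.real_norm_sq_eq, Fin.sum_univ_succ, Fin.sum_univ_succ]
  have h1 : (Fin.succ 0 : Fin (m + 2)) = 1 := rfl
  rw [c0, h1, c1]
  simp only [ci]
  rw [mul_pow, div_pow, h3]
  ring

lemma norm_conf (j : Fin (m + 3)) : ‖conf m j‖ = 1 := by
  have h := norm_sum_sq m (Pi.single j 1)
  have h1 : ∑ i, (Pi.single j (1 : ℝ) : Fin (m + 3) → ℝ) i • conf m i = conf m j := by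
    rw [Finset.sum_eq_single j]
    · simp
    · intro b _ hb
      simp [Pi.single_eq_of_ne hb]
    · simp
  rw [h1] at h
  have hmod : 2 % (m + 3) = 2 := Nat.mod_eq_of_lt (by omega)
  have h2 : ‖conf m j‖ ^ 2 = 1 := by
    rw [h]
    refine Fin.cases ?_ (fun j => Fin.cases ?_ (fun j => Fin.cases ?_ (fun i => ?_) j) j) j
    · simp [Pi.single_apply, Fin.ext_iff, hmod]
    · simp [Pi.single_apply, Fin.ext_iff, hmod]
      norm_num
    · simp [Pi.single_apply, Fin.ext_iff, hmod]
      norm_num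
    · have h5 : ∀ i : Fin m, ¬ (2 = (i : ℕ) + 1 + 1 + 1) := by intro i; omega
      simp [Pi.single_apply, Fin.ext_iff, hmod, h5]
      rw [Finset.card_eq_one]
      exact ⟨i, by ext x; simp [Fin.ext_iff]⟩
  have h3 : 0 ≤ ‖conf m j‖ := norm_nonneg _
  nlinarith

/-- the families of the mixed configuration -/
noncomputable def fam (i : Fin (m + 3)) : Finset (E (m + 2)) := by
  classical
  exact {conf m i, -conf m i}

lemma mem_fam (i : Fin (m + 3)) (x : E (m + 2)) : x ∈ fam m i ↔ x = conf m i ∨ x = -conf m i := by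
  classical
  unfold fam
  simp

lemma conf_ne_neg (i : Fin (m + 3)) : conf m i ≠ -conf m i := by
  intro h
  have h1 : (2 : ℝ) • conf m i = 0 := by
    rw [two_smul]
    nth_rewrite 1 [h]
    simp
  have h2 : conf m i = 0 := (smul_eq_zero.1 h1).resolve_left (by norm_num)
  have h3 := norm_conf m i
  rw [h2, norm_zero] at h3
  norm_num at h3

lemma fam_balanced (i : Fin (m + 3)) : IsBalanced (m + 2) (fam m i) := by
  classical
  have hcard : (fam m i).card = 2 := by
    unfold fam
    exact Finset.card_pair (conf_ne_neg m i)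
  refine ⟨hcard.ge, by rw [hcard]; omega, ?_, fun _ => 1, fun _ _ => one_pos, ?_⟩
  · intro u hu
    rw [mem_fam] at hu
    rcases hu with rfl | rfl
    · exact norm_conf m i
    · rw [norm_neg]; exact norm_conf m i
  · unfold fam
    rw [Finset.sum_pair (conf_ne_neg m i)]
    simp

lemma max_dist : IsMaxDist (m + 2) (fam m) 0 (√(((m + 2 : ℕ) : ℝ) + 2)) := by
  have h2ne0 : ¬ (0 : Fin (m + 3)) = 2 := by
    intro h
    have := congrArg Fin.val h
    have hmod : 2 % (m + 3) = 2 := Nat.mod_eq_of_lt (by omega)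
    simp [hmod] at this
  have h2ne1 : ¬ (1 : Fin (m + 3)) = 2 := by
    intro h
    have := congrArg Fin.val h
    have hmod : 2 % (m + 3) = 2 := Nat.mod_eq_of_lt (by omega)
    simp [hmod] at this
  have h2ne : ∀ i : Fin m, ¬ (i.succ.succ.succ : Fin (m + 3)) = 2 := by
    intro i h
    have := congrArg Fin.val h
    have hmod : 2 % (m + 3) = 2 := Nat.mod_eq_of_lt (by omega)
    simp [hmod] at this
  constructor
  · refine ⟨fun i => if i = 2 then -conf m i else conf m i, ?_, ?_⟩
    · intro i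
      rw [mem_fam]
      by_cases h : i = 2 <;> simp [h]
    · have h1 : ∀ i : Fin (m + 3), (if i = 2 then -conf m i else conf m i) =
          (if i = 2 then (-1 : ℝ) else 1) • conf m i := by
        intro i
        split_ifs <;> simp
      simp only [h1, sub_zero]
      have h2 := norm_sum_sq m (fun i => if i = 2 then (-1 : ℝ) else 1)
      have h3 : ‖∑ j, (if j = 2 then (-1 : ℝ) else 1) • conf m j‖ ^ 2 = ((m + 2 : ℕ) : ℝ) + 2 := by
        rw [h2]
        simp only [if_neg h2ne0, if_neg h2ne1, if_neg (h2ne _)]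
        simp
        ring
      rw [← h3, Real.sqrt_sq (norm_nonneg _)]
  · rintro ρ ⟨s, hs, rfl⟩
    have hε : ∀ i, ∃ ε : ℝ, (ε = 1 ∨ ε = -1) ∧ s i = ε • conf m i := by
      intro i
      have := hs i
      rw [mem_fam] at this
      rcases this with h | h
      · exact ⟨1, Or.inl rfl, by rw [h, one_smul]⟩
      · exact ⟨-1, Or.inr rfl, by rw [h, neg_one_smul]⟩
    choose ε hε1 hε2 using hε
    rw [sub_zero, Finset.sum_congr rfl (fun i _ => hε2 i)]
    apply Real.le_sqrt_of_sq_le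
    rw [norm_sum_sq]
    have hsq : ∀ i, ε i ^ 2 = 1 := by
      intro i
      rcases hε1 i with h | h <;> rw [h] <;> norm_num
    simp only [hsq]
    have h4 : (ε 0 - (ε 1 + ε 2) / 2) ^ 2 + 3 / 4 * (ε 1 - ε 2) ^ 2 ≤ 4 := by
      rcases hε1 0 with h0 | h0 <;> rcases hε1 1 with h1 | h1 <;> rcases hε1 2 with h2 | h2 <;>
        rw [h0, h1, h2] <;> norm_num
    simp
    linarith

lemma dist_sq {n : ℕ} (x y : E n) (hx : ‖x‖ = 1) (hy : ‖y‖ = 1) :
    dist x y ^ 2 = 2 - 2 * inner ℝ x y := by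
  rw [dist_eq_norm, norm_sub_sq_real, hx, hy]
  ring

lemma inner01 : inner ℝ (conf m 0) (conf m 1) = -(1 / 2) := by
  rw [conf_zero, conf_one, inner_add_right, inner_smul_right, inner_smul_right]
  simp [EuclideanSpace.inner_single_left]

lemma inner0i (i : Fin m) : inner ℝ (conf m 0) (conf m i.succ.succ.succ) = 0 := by
  rw [conf_zero, conf_succ]
  simp [EuclideanSpace.inner_single_left, ne0]

/-- for even `n = m + 2 ≥ 4` the mixed configuration is not in the list -/
lemma not_listed (hm : 2 ≤ m) (he : Even m) : ¬ Listed (m + 2) (fam m) 0 := by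
  rintro ⟨-, u, hu, σ, hev, -⟩
  obtain ⟨r, -, hr⟩ := hev (by
    obtain ⟨k, hk⟩ := he
    exact ⟨k + 1, by omega⟩)
  have hr' : ∀ i j, i ≠ j → dist (u i) (u j) = r := by
    intro i j hij
    have := hr (σ.symm i) (σ.symm j) (fun h => hij (σ.symm.injective h))
    simpa using this
  have hsign : ∀ i, ∃ a : ℝ, (a = 1 ∨ a = -1) ∧ u i = a • conf m i := by
    intro i
    have h1 : conf m i ∈ fam m i := by rw [mem_fam]; left; rfl
    rw [(hu i).2] at h1
    rcases h1 with h | h
    · exact ⟨1, Or.inl rfl, by rw [← h, one_smul]⟩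
    · exact ⟨-1, Or.inr rfl, by rw [h]; simp⟩
  have h3 : (0 : Fin (m + 3)) ≠ (⟨0, by omega⟩ : Fin m).succ.succ.succ := by
    intro h
    have := congrArg Fin.val h
    simp at this
  have h1 : (0 : Fin (m + 3)) ≠ 1 := by
    intro h
    have := congrArg Fin.val h
    simp at this
  have d1 := dist_sq (u 0) (u 1) (hu 0).1 (hu 1).1
  have d2 := dist_sq (u 0) (u (⟨0, by omega⟩ : Fin m).succ.succ.succ) (hu 0).1 (hu _).1
  rw [hr' _ _ h1] at d1
  rw [hr' _ _ h3] at d2
  obtain ⟨a, ha, hua⟩ := hsign 0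
  obtain ⟨b, hb, hub⟩ := hsign 1
  obtain ⟨c, hc, huc⟩ := hsign (⟨0, by omega⟩ : Fin m).succ.succ.succ
  rw [hua, hub, inner_smul_left, inner_smul_right, inner01] at d1
  rw [hua, huc, inner_smul_left, inner_smul_right, inner0i] at d2
  rw [d1] at d2
  simp only [conj_trivial] at d2
  rcases ha with h | h <;> rcases hb with h' | h' <;> rw [h, h'] at d2 <;> norm_num at d2

/-- Q2 fails for every even `n ≥ 4`. -/
theorem main (n : ℕ) (hn : 4 ≤ n) (he : Even n) :
    ∃ (U : Fin (n + 1) → Finset (E n)) (c : E n), (∀ i, IsBalanced n (U i)) ∧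
      IsMaxDist n U c (√((n : ℝ) + 2)) ∧ ¬ Listed n U c := by
  obtain ⟨m, rfl⟩ : ∃ m, n = m + 2 := ⟨n - 2, by omega⟩
  have hem : Even m := by
    obtain ⟨k, hk⟩ := he
    exact ⟨k - 1, by omega⟩
  exact ⟨fam m, 0, fam_balanced m, max_dist m, not_listed m (by omega) hem⟩

end Pool.Agent.Work.MP_4da8b1_gt
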